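import Mathlib
import Pool.Agent.W838.DC.Stm3
import Pool.Agent.W838.DC.Basic

/-!
Project DC: main induction for G (orthogonal decompositions).
-/

set_option autoImplicit false

namespace Pool.Agent.W435.DC

open Pool.Agent.W838.DC Sys

variable {V X : Type*} [AddCommGroup V] (σ : Sys V X)

theorem pd1 {x : X} {a b : V} (ha : σ.R x a) (hb : σ.R x b) (h : σ.ip a b = -1)
    (hP : σ.P (σ.r (a + b) x)) : σ.P (σ.r a x) ∧ σ.P (σ.r b (σ.r a x)) := by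
  have h' : σ.ip b a = -1 := by rw [σ.ip_symm]; exact h
  have e1 : σ.r a (σ.r b (σ.r a x)) = σ.r (a + b) x := by
    rw [σ.r_conj_neg ha.1 hb.1 h, σ.r_r ha.1]
  have l1 : σ.lab (σ.r a x) b = σ.lab x a + σ.lab x b := σ.lab_r_neg ha.1 x h
  have l2 : σ.lab (σ.r b (σ.r a x)) a = σ.lab x b := by
    rw [σ.lab_r_neg hb.1 _ h', l1, σ.lab_r_self ha.1]
    abel
  have r1 : σ.R (σ.r a x) b := ⟨hb.1, hb.2.1, by
    rw [l1, map_add]; have := ha.2.2; have := hb.2.2; omega⟩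
  have r2 : σ.R (σ.r b (σ.r a x)) a := ⟨ha.1, ha.2.1, by rw [l2]; exact hb.2.2⟩
  have p1 : σ.P (σ.r b (σ.r a x)) := σ.P_of_R r2 (by rw [e1]; exact hP)
  exact ⟨σ.P_of_R r1 p1, p1⟩

theorem pd {x : X} {a b : V} (ha : σ.R x a) (hb : σ.R x b) (h : σ.ip a b = -1)
    (hP : σ.P (σ.r (a + b) x)) :
    σ.P (σ.r a x) ∧ σ.P (σ.r b x) ∧ σ.P (σ.r a (σ.r b x)) ∧ σ.P (σ.r b (σ.r a x)) := by
  have h1 := pd1 σ ha hb h hP
  have h2 := pd1 σ hb ha (by rw [σ.ip_symm]; exact h) (by rw [add_comm]; exact hP)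
  exact ⟨h1.1, h2.1, h2.2, h1.2⟩

/-- part (ii) -/
theorem lemA {x : X} {z f n : V} (hA : σ.Arr x z f) (hn : σ.N x n)
    (hzn : σ.ip z n = 1) (hm : σ.R x (z - n)) (hP : ¬ σ.P (σ.r (z - n) x)) :
    (σ.ip f n = 0 ∨ σ.ip f n = -1) ∧ σ.N (σ.r f x) n ∧
      (σ.ip f n = -1 → σ.ht (σ.lab x (n + f)) < 0) := by
  obtain ⟨hz, hf, hzf, -, hPz⟩ := hA
  have hne : f ≠ n := by
    rintro rfl
    exact σ.not_R_and_N hf.1 hn
  have hfm : σ.ip f (z - n) = -1 - σ.ip f n := by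
    rw [σ.ip_sub_right, σ.ip_symm f z, hzf]
  have h1 : σ.ip f n = 0 ∨ σ.ip f n = -1 := by
    rcases σ.ip_pos hf.1.1 hn.1 hf.1.2.1 hn.2.1 hne with h | h | h
    · exact Or.inr h
    · exact Or.inl h
    · exfalso
      rw [h] at hfm
      have h2 := σ.ip_eq_neg_two hf.1.1 hm.1 (by rw [hfm]; norm_num)
      have h3 : σ.ht f = - σ.ht (z - n) := by rw [h2, map_neg]
      have := hf.1.2.1
      have := hm.2.1
      omega
  have h2 : σ.N (σ.r f x) n := by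
    rcases h1 with h | h
    · refine ⟨hn.1, hn.2.1, ?_⟩
      rw [σ.lab_r_zero hf.1.1 x h]
      exact hn.2.2
    · rcases σ.R_or_N (σ.r f x) hn.1 hn.2.1 with hR | hN
      · exfalso
        rw [h] at hfm
        have hfm0 : σ.ip f (z - n) = 0 := by rw [hfm]; norm_num
        have hRm : σ.R (σ.r f x) (z - n) := ⟨hm.1, hm.2.1, by
          rw [σ.lab_r_zero hf.1.1 x hfm0]; exact hm.2.2⟩
        have hmn : σ.ip (z - n) n = -1 := by
          rw [σ.ip_sub, hzn, σ.ip_self n hn.1]; norm_num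
        have h3 := pd σ hRm hR hmn (by rw [sub_add_cancel]; exact hPz)
        have h4 : σ.P (σ.r f (σ.r (z - n) x)) := by
          rw [σ.r_comm hf.1.1 hm.1 hfm0]
          exact h3.1
        refine hP (σ.P_of_R (a := f) ?_ h4)
        refine ⟨hf.1.1, hf.1.2.1, ?_⟩
        rw [σ.lab_r_zero hm.1 x (by rw [σ.ip_symm]; exact hfm0)]
        exact hf.1.2.2
      · exact hN
  refine ⟨h1, h2, ?_⟩
  intro h
  have h3 := h2.2.2
  rw [σ.lab_r_neg hf.1.1 x h] at h3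
  rw [map_add, add_comm]
  exact h3

/-- part (iii), `c = 1` -/
theorem lemC1 {h : X → V → ℤ} {x : X} (hC : σ.Claims h x) (hV : σ.VReg x) {y f : V}
    (hy : σ.Psi x y) (hf : σ.Psi x f) (hfy : σ.ip f y = 0) :
    σ.Psi (σ.r f x) y ∧ h (σ.r f x) y ≤ h x y := by
  have hyf : σ.ip y f = 0 := by rw [σ.ip_symm]; exact hfy
  refine ⟨⟨⟨hy.1.1, hy.1.2.1, ?_⟩, hV.perp y f hy hf hyf⟩, hC.perp y f hy hf hyf⟩
  rw [σ.lab_r_zero hf.1.1 x hfy]
  exact hy.1.2.2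

/-- part (iii), `c = 2` -/
theorem lemC2 {h : X → V → ℤ} {x : X} (hC : σ.Claims h x) (hV : σ.VReg x) {y f n : V}
    (hy : σ.Psi x y) (hf : σ.Psi x f) (hfy : σ.ip f y = 1)
    (hyn : σ.R x (y + n)) (hnf : σ.ht (σ.lab x (n + f)) < 0) :
    σ.Psi (σ.r f x) y ∧ h (σ.r f x) y ≤ h x y := by
  have hyf : σ.ip y f = 1 := by rw [σ.ip_symm]; exact hfy
  have hg : f - y ∈ σ.Φ := σ.sub_mem hf.1.1 hy.1.1 hfy
  have hg' : y - f ∈ σ.Φ := σ.sub_mem hy.1.1 hf.1.1 hyf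
  have hlab : σ.lab (σ.r f x) y = σ.lab x y - σ.lab x f := σ.lab_r_pos hf.1.1 x hfy
  have hyn' := hyn.2.2
  rw [map_add, map_add] at hnf hyn'
  rcases lt_or_gt_of_ne (σ.ht_ne _ hg) with hlt | hgt
  · have hpos : 0 < σ.ht (y - f) := by
      rw [map_sub] at hlt ⊢
      omega
    have hR : σ.R x (y - f) := by
      rcases σ.R_or_N x hg' hpos with hR | hN
      · exact hR
      · exfalso
        have h1 := hN.2.2
        rw [map_sub, map_sub] at h1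
        omega
    have hip : σ.ip f (y - f) = -1 := by
      rw [σ.ip_sub_right, hfy, σ.ip_self f hf.1.1]; norm_num
    have hip' : σ.ip (y - f) f = -1 := by rw [σ.ip_symm]; exact hip
    have hpl := pd σ hR hf.1 hip' (by rw [sub_add_cancel]; exact hy.2)
    have hC6 : σ.C6 x (y - f) f := ⟨⟨hR, hpl.1⟩, hf, hip', by
      rw [sub_add_cancel]; exact hy.2⟩
    have m3 := hC.M3 _ _ hC6
    have c9 := hC.C9 _ _ hC6
    rw [sub_add_cancel] at m3 c9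
    refine ⟨⟨⟨hy.1.1, hy.1.2.1, ?_⟩, ?_⟩, ?_⟩
    · rw [hlab, ← map_sub]
      exact hR.2.2
    · have e1 := σ.r_conj_neg hf.1.1 hg' hip x
      rw [add_sub_cancel] at e1
      rw [← e1]
      exact hpl.2.2.2
    · rw [← m3]; exact c9
  · have hN : σ.N x (f - y) := by
      rcases σ.R_or_N x hg hgt with hR | hN
      · exfalso
        have h1 := hR.2.2
        rw [map_sub, map_sub] at h1
        omega
      · exact hN
    have hD : σ.Dbl x y f := ⟨hy, hf, hyf, hN⟩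
    refine ⟨⟨⟨hy.1.1, hy.1.2.1, ?_⟩, hV.pos y f hy hf hyf hN⟩, hC.D2 y f hD⟩
    have h1 := hN.2.2
    rw [map_sub, map_sub] at h1
    rw [hlab, map_sub]
    omega

/-- part (iii), `c = 0`, two entries -/
theorem lemC0 (hX : S_FX σ) (hY : S_FY σ) {x : X} (hR : σ.RegUp x) {y f n₁ n₂ : V}
    (hy : σ.Psi x y) (h1 : σ.N x n₁) (h2 : σ.N x n₂) (hy1 : σ.ip y n₁ = -1)
    (hy2 : σ.ip y n₂ = -1) (h12 : σ.ip n₁ n₂ = 0)
    (hz : σ.Arr x (y + n₁ + n₂) f) (hm1 : σ.R x (y + n₁)) (hm2 : σ.R x (y + n₂))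
    (hP1 : ¬ σ.P (σ.r (y + n₁) x)) (hP2 : ¬ σ.P (σ.r (y + n₂) x))
    (hf1 : σ.ip f n₁ = 0) (hf2 : σ.ip f n₂ = 0) (hfy : σ.ip f y = -1) : σ.Arr x y f := by
  by_contra hno
  obtain ⟨hzP, hf, hzf, hnP, hPzf⟩ := id hz
  have hyf : σ.ip y f = -1 := by rw [σ.ip_symm]; exact hfy
  have hyy := σ.ip_self y hy.1.1
  have h11 := σ.ip_self n₁ h1.1
  have h22 := σ.ip_self n₂ h2.1
  have hn1y : σ.ip n₁ y = -1 := by rw [σ.ip_symm]; exact hy1
  have hn2y : σ.ip n₂ y = -1 := by rw [σ.ip_symm]; exact hy2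
  have h21 : σ.ip n₂ n₁ = 0 := by rw [σ.ip_symm]; exact h12
  have hV := hR.v
  have hPfy : σ.P (σ.r f (σ.r y x)) := by
    by_cases hyfP : σ.P (σ.r (y + f) x)
    · exact (pd σ hy.1 hf.1 hyf hyfP).2.2.2
    · rcases hV.neg y f hy hf hyf with h | h
      · exact absurd ⟨hy, hf, hyf, hyfP, h⟩ hno
      · exact h
  -- the vertex X = r z x
  have hzy : σ.ip (y + n₁ + n₂) y = 0 := by
    rw [σ.ip_add, σ.ip_add, hyy, hn1y, hn2y]; norm_num
  have hzn1 : σ.ip (y + n₁ + n₂) n₁ = 1 := by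
    rw [σ.ip_add, σ.ip_add, hy1, h11, h21]; norm_num
  have hRX := hR.step hzP
  have hXy : σ.Psi (σ.r (y + n₁ + n₂) x) y := by
    refine ⟨⟨hy.1.1, hy.1.2.1, ?_⟩, hV.perp y _ hy hzP (by rw [σ.ip_symm]; exact hzy)⟩
    rw [σ.lab_r_zero hzP.1.1 x hzy]
    exact hy.1.2.2
  have hfz : σ.ip (y + n₁ + n₂) (f + (y + n₂) + n₁) = 1 := by
    have e : f + (y + n₂) + n₁ = f + (y + n₁ + n₂) := by abel
    rw [e, σ.ip_add_right, hzf, σ.ip_self _ hzP.1.1]; norm_num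
  have hfzΦ : f + (y + n₂) + n₁ ∈ σ.Φ := by
    have e : f + (y + n₂) + n₁ = (y + n₁ + n₂) + f := by abel
    rw [e]
    exact σ.add_mem hzP.1.1 hf.1.1 hzf
  have hXfz : σ.Psi (σ.r (y + n₁ + n₂) x) (f + (y + n₂) + n₁) := by
    refine ⟨⟨hfzΦ, ?_, ?_⟩, ?_⟩
    · have e : f + (y + n₂) + n₁ = (y + n₁ + n₂) + f := by abel
      rw [e, map_add]
      have := hzP.1.2.1
      have := hf.1.2.1
      omega
    · rw [σ.lab_r_pos hzP.1.1 x hfz, ← map_sub]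
      have e : f + (y + n₂) + n₁ - (y + n₁ + n₂) = f := by abel
      rw [e]
      exact hf.1.2.2
    · have e1 := σ.r_conj_neg hzP.1.1 hf.1.1 hzf x
      have e : (y + n₁ + n₂) + f = f + (y + n₂) + n₁ := by abel
      rw [e] at e1
      rw [← e1]
      exact hPzf
  have hXn1 : σ.N (σ.r (y + n₁ + n₂) x) n₁ := by
    refine ⟨h1.1, h1.2.1, ?_⟩
    rw [σ.lab_r_pos hzP.1.1 x hzn1, ← map_sub]
    have e : n₁ - (y + n₁ + n₂) = -(y + n₂) := by abel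
    rw [e, map_neg, map_neg]
    have := hm2.2.2
    omega
  have hzm1 : σ.ip (y + n₁ + n₂) (n₁ + y) = 1 := by
    rw [σ.ip_add_right, hzn1, hzy]; norm_num
  have hXm1 : σ.R (σ.r (y + n₁ + n₂) x) (n₁ + y) := by
    rw [add_comm n₁ y] at hzm1 ⊢
    refine ⟨hm1.1, hm1.2.1, ?_⟩
    rw [σ.lab_r_pos hzP.1.1 x hzm1, ← map_sub]
    have e : y + n₁ - (y + n₁ + n₂) = - n₂ := by abel
    rw [e, map_neg, map_neg]
    have := h2.2.2
    omega
  have hXm1P : ¬ σ.P (σ.r (n₁ + y) (σ.r (y + n₁ + n₂) x)) := by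
    intro hP
    rw [add_comm n₁ y] at hP hzm1
    apply hP1
    have e1 := σ.r_conj_pos hm1.1 hzP.1.1 (by rw [σ.ip_symm]; exact hzm1) x
    have e : y + n₁ + n₂ - (y + n₁) = n₂ := by abel
    rw [e] at e1
    rw [e1] at hP
    refine σ.P_of_R (a := n₂) ?_ hP
    refine ⟨h2.1, h2.2.1, ?_⟩
    have e2 : σ.ip (y + n₁) n₂ = -1 := by rw [σ.ip_add, hy2, h12]; norm_num
    rw [σ.lab_r_neg hm1.1 x e2, ← map_add]
    exact hzP.1.2.2
  have hfm2 : σ.ip f (y + n₂) = -1 := by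
    rw [σ.ip_add_right, hfy, hf2]; norm_num
  have haΦ : f + (y + n₂) ∈ σ.Φ := σ.add_mem hf.1.1 hm2.1 hfm2
  have haz : σ.ip (y + n₁ + n₂) (f + (y + n₂)) = 0 := by
    rw [σ.ip_add_right, σ.ip_add_right, hzf, hzy, σ.ip_add, σ.ip_add, hy2, h12, h22]; norm_num
  have hXa : σ.R (σ.r (y + n₁ + n₂) x) (f + (y + n₂)) := by
    refine ⟨haΦ, ?_, ?_⟩
    · rw [map_add]
      have := hf.1.2.1
      have := hm2.2.1
      omega
    · rw [σ.lab_r_zero hzP.1.1 x haz, map_add, map_add]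
      have := hf.1.2.2
      have := hm2.2.2
      omega
  have hXaP : ¬ σ.P (σ.r (f + (y + n₂)) (σ.r (y + n₁ + n₂) x)) := by
    intro hP
    apply hP2
    rw [σ.r_comm haΦ hzP.1.1 (by rw [σ.ip_symm]; exact haz)] at hP
    have h3 : σ.P (σ.r (f + (y + n₂)) x) := by
      refine σ.P_of_R (a := y + n₁ + n₂) ?_ hP
      refine ⟨hzP.1.1, hzP.1.2.1, ?_⟩
      rw [σ.lab_r_zero haΦ x (by rw [σ.ip_symm]; exact haz)]
      exact hzP.1.2.2
    exact (pd σ hf.1 hm2 hfm2 h3).2.1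
  have hfin := hX _ hRX (f + (y + n₂)) n₁ y hXa hXn1 hXy
    (by rw [σ.ip_add, σ.ip_add, hf1, hy1, h21]; norm_num) hn1y
    (by rw [σ.ip_add, σ.ip_add, hfy, hyy, hn2y]; norm_num) hXaP hXfz hXm1 hXm1P
  apply hfin
  rw [σ.r_comm hy.1.1 hzP.1.1 (by rw [σ.ip_symm]; exact hzy)]
  have e1 := σ.r_conj_neg hzP.1.1 hf.1.1 hzf (σ.r y x)
  have e : (y + n₁ + n₂) + f = f + (y + n₂) + n₁ := by abel
  rw [e] at e1
  rw [← e1]
  exact hY x hR _ f y hz hy hzy hfy hPfy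

/-- one entry -/
theorem go1 (hC : S_CLM σ) {h : X → V → ℤ} (hpot : σ.IsPot h) {x : X} (hR : σ.RegUp x)
    {y n : V} (hy : σ.Psi x y) (hn : σ.N x n) (hyn : σ.ip y n = -1) (hz : σ.Psi x (y + n)) :
    h x (y + n) ≤ h x y := by
  refine (hC h hpot x hR).P2 y (y + n) ⟨hy, hz, ?_, ?_⟩
  · rw [σ.ip_add_right, σ.ip_self y hy.1.1, hyn]; norm_num
  · rw [add_sub_cancel_left]
    exact hn

/-- two entries -/
theorem go2 (hC : S_CLM σ) (hX : S_FX σ) (hY : S_FY σ) (hmu : S_CNT σ) {h : X → V → ℤ}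
    (hpot : σ.IsPot h) : ∀ (k : ℕ) (x : X), σ.mu x = k → σ.RegUp x → ∀ y n₁ n₂ : V,
    σ.Psi x y → σ.N x n₁ → σ.N x n₂ → σ.ip y n₁ = -1 → σ.ip y n₂ = -1 → σ.ip n₁ n₂ = 0 →
    σ.Psi x (y + n₁ + n₂) → h x (y + n₁ + n₂) ≤ h x y := by
  intro k
  induction k using Nat.strong_induction_on with
  | _ k ih =>
  intro x hk hR y n₁ n₂ hy h1 h2 hy1 hy2 h12 hz
  have hyy := σ.ip_self y hy.1.1
  have h11 := σ.ip_self n₁ h1.1
  have h22 := σ.ip_self n₂ h2.1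
  have h21 : σ.ip n₂ n₁ = 0 := by rw [σ.ip_symm]; exact h12
  have hn1y : σ.ip n₁ y = -1 := by rw [σ.ip_symm]; exact hy1
  have hn2y : σ.ip n₂ y = -1 := by rw [σ.ip_symm]; exact hy2
  have hl := hz.1.2.2
  have hl1 := h1.2.2
  have hl2 := h2.2.2
  have hh := hy.1.2.1
  have hh1 := h1.2.1
  have hh2 := h2.2.1
  rw [map_add, map_add, map_add, map_add] at hl
  have hm1 : σ.R x (y + n₁) := ⟨σ.add_mem hy.1.1 h1.1 hy1, by rw [map_add]; omega, by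
    rw [map_add, map_add]; omega⟩
  have hm2 : σ.R x (y + n₂) := ⟨σ.add_mem hy.1.1 h2.1 hy2, by rw [map_add]; omega, by
    rw [map_add, map_add]; omega⟩
  by_cases hP1 : σ.P (σ.r (y + n₁) x)
  · have e1 := go1 σ hC hpot hR hy h1 hy1 ⟨hm1, hP1⟩
    have e2 := go1 σ hC hpot hR ⟨hm1, hP1⟩ h2 (by rw [σ.ip_add, hy2, h12]; norm_num) hz
    exact e2.trans e1
  by_cases hP2 : σ.P (σ.r (y + n₂) x)
  · have e1 := go1 σ hC hpot hR hy h2 hy2 ⟨hm2, hP2⟩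
    have e2 := go1 σ hC hpot hR ⟨hm2, hP2⟩ h1 (by rw [σ.ip_add, hy1, h21]; norm_num)
      (by rw [add_right_comm]; exact hz)
    rw [add_right_comm] at e2
    exact e2.trans e1
  rcases hpot.elim x (y + n₁ + n₂) with he | ⟨f, hA, he⟩
  · rw [he, map_add, map_add, map_add, map_add]
    have := hpot.lab x y
    omega
  have hA' := hA
  obtain ⟨-, hf, hzf, -, hPzf⟩ := hA'
  have hCx := hC h hpot x hR
  have hzn1 : σ.ip (y + n₁ + n₂) n₁ = 1 := by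
    rw [σ.ip_add, σ.ip_add, hy1, h11, h21]; norm_num
  have hzn2 : σ.ip (y + n₁ + n₂) n₂ = 1 := by
    rw [σ.ip_add, σ.ip_add, hy2, h22, h12]; norm_num
  have q1 : y + n₁ + n₂ - n₁ = y + n₂ := by abel
  have q2 : y + n₁ + n₂ - n₂ = y + n₁ := by abel
  obtain ⟨a1, b1, c1⟩ := lemA σ hA h1 hzn1 (by rw [q1]; exact hm2) (by rw [q1]; exact hP2)
  obtain ⟨a2, b2, c2⟩ := lemA σ hA h2 hzn2 (by rw [q2]; exact hm1) (by rw [q2]; exact hP1)
  have hfz : σ.ip f y + σ.ip f n₁ + σ.ip f n₂ = -1 := by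
    rw [← σ.ip_add_right, ← σ.ip_add_right, σ.ip_symm]; exact hzf
  have main : σ.Psi (σ.r f x) y ∧ h (σ.r f x) y ≤ h x y := by
    rcases a1 with a1 | a1 <;> rcases a2 with a2 | a2
    · have hfy : σ.ip f y = -1 := by omega
      have hyf : σ.ip y f = -1 := by rw [σ.ip_symm]; exact hfy
      have hAy := lemC0 σ hX hY hR hy h1 h2 hy1 hy2 h12 hA hm1 hm2 hP1 hP2 a1 a2 hfy
      refine ⟨⟨⟨hy.1.1, hy.1.2.1, ?_⟩, hAy.2.2.2.2⟩, hpot.step x y f hAy⟩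
      rw [σ.lab_r_neg hf.1.1 x hfy, map_add]
      have := hf.1.2.2
      have := hy.1.2.2
      omega
    · exact lemC1 σ hCx hR.v hy hf (by omega)
    · exact lemC1 σ hCx hR.v hy hf (by omega)
    · exact lemC2 σ hCx hR.v hy hf (by omega) hm1 (c1 a1)
  have hz' : σ.Psi (σ.r f x) (y + n₁ + n₂) := by
    refine ⟨⟨hz.1.1, hz.1.2.1, ?_⟩, hPzf⟩
    rw [σ.lab_r_neg hf.1.1 x (by rw [σ.ip_symm]; exact hzf), map_add]
    have := hf.1.2.2
    have := hz.1.2.2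
    omega
  have hlt : σ.mu (σ.r f x) < k := by
    rw [← hk]
    exact (hmu x f hf.1).1
  have hfin := ih _ hlt (σ.r f x) rfl (hR.step hf) y n₁ n₂ main.1 b1 b2 hy1 hy2 h12 hz'
  rw [he]
  exact hfin.trans main.2

/-- three entries -/
theorem go3 (hC : S_CLM σ) (hX : S_FX σ) (hY : S_FY σ) (hmu : S_CNT σ) {h : X → V → ℤ}
    (hpot : σ.IsPot h) : ∀ (k : ℕ) (x : X), σ.mu x = k → σ.RegUp x → ∀ y n₁ n₂ n₃ : V,
    σ.Psi x y → σ.N x n₁ → σ.N x n₂ → σ.N x n₃ → σ.ip y n₁ = -1 → σ.ip y n₂ = -1 →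
    σ.ip y n₃ = -1 → σ.ip n₁ n₂ = 0 → σ.ip n₁ n₃ = 0 → σ.ip n₂ n₃ = 0 →
    σ.Psi x (y + n₁ + n₂ + n₃) → h x (y + n₁ + n₂ + n₃) ≤ h x y := by
  intro k
  induction k using Nat.strong_induction_on with
  | _ k ih =>
  intro x hk hR y n₁ n₂ n₃ hy h1 h2 h3 hy1 hy2 hy3 h12 h13 h23 hz
  have hyy := σ.ip_self y hy.1.1
  have h11 := σ.ip_self n₁ h1.1
  have h22 := σ.ip_self n₂ h2.1
  have h33 := σ.ip_self n₃ h3.1
  have h21 : σ.ip n₂ n₁ = 0 := by rw [σ.ip_symm]; exact h12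
  have h31 : σ.ip n₃ n₁ = 0 := by rw [σ.ip_symm]; exact h13
  have h32 : σ.ip n₃ n₂ = 0 := by rw [σ.ip_symm]; exact h23
  have hn1y : σ.ip n₁ y = -1 := by rw [σ.ip_symm]; exact hy1
  have hn2y : σ.ip n₂ y = -1 := by rw [σ.ip_symm]; exact hy2
  have hn3y : σ.ip n₃ y = -1 := by rw [σ.ip_symm]; exact hy3
  have hl := hz.1.2.2
  have hl1 := h1.2.2
  have hl2 := h2.2.2
  have hl3 := h3.2.2
  have hh := hy.1.2.1
  have hh1 := h1.2.1
  have hh2 := h2.2.1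
  have hh3 := h3.2.1
  rw [map_add, map_add, map_add, map_add, map_add, map_add] at hl
  have hm1 : σ.R x (y + n₁) := ⟨σ.add_mem hy.1.1 h1.1 hy1, by rw [map_add]; omega, by
    rw [map_add, map_add]; omega⟩
  have hm2 : σ.R x (y + n₂) := ⟨σ.add_mem hy.1.1 h2.1 hy2, by rw [map_add]; omega, by
    rw [map_add, map_add]; omega⟩
  have hm3 : σ.R x (y + n₃) := ⟨σ.add_mem hy.1.1 h3.1 hy3, by rw [map_add]; omega, by
    rw [map_add, map_add]; omega⟩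
  have hm12 : σ.R x (y + n₁ + n₂) := ⟨σ.add_mem hm1.1 h2.1 (by rw [σ.ip_add, hy2, h12]; norm_num),
    by rw [map_add, map_add]; omega, by rw [map_add, map_add, map_add, map_add]; omega⟩
  have hm13 : σ.R x (y + n₁ + n₃) := ⟨σ.add_mem hm1.1 h3.1 (by rw [σ.ip_add, hy3, h13]; norm_num),
    by rw [map_add, map_add]; omega, by rw [map_add, map_add, map_add, map_add]; omega⟩
  have hm23 : σ.R x (y + n₂ + n₃) := ⟨σ.add_mem hm2.1 h3.1 (by rw [σ.ip_add, hy3, h23]; norm_num),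
    by rw [map_add, map_add]; omega, by rw [map_add, map_add, map_add, map_add]; omega⟩
  have G2 := fun {y n₁ n₂ : V} (a : σ.Psi x y) (b : σ.N x n₁) (c : σ.N x n₂) (d e f g) =>
    go2 σ hC hX hY hmu hpot (σ.mu x) x rfl hR y n₁ n₂ a b c d e f g
  by_cases hP1 : σ.P (σ.r (y + n₁) x)
  · have e1 := go1 σ hC hpot hR hy h1 hy1 ⟨hm1, hP1⟩
    have e2 := G2 ⟨hm1, hP1⟩ h2 h3 (by rw [σ.ip_add, hy2, h12]; norm_num)
      (by rw [σ.ip_add, hy3, h13]; norm_num) h23 hz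
    exact e2.trans e1
  by_cases hP2 : σ.P (σ.r (y + n₂) x)
  · have e1 := go1 σ hC hpot hR hy h2 hy2 ⟨hm2, hP2⟩
    have q : y + n₂ + n₁ + n₃ = y + n₁ + n₂ + n₃ := by abel
    have e2 := G2 ⟨hm2, hP2⟩ h1 h3 (by rw [σ.ip_add, hy1, h21]; norm_num)
      (by rw [σ.ip_add, hy3, h23]; norm_num) h13 (by rw [q]; exact hz)
    rw [q] at e2
    exact e2.trans e1
  by_cases hP3 : σ.P (σ.r (y + n₃) x)
  · have e1 := go1 σ hC hpot hR hy h3 hy3 ⟨hm3, hP3⟩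
    have q : y + n₃ + n₁ + n₂ = y + n₁ + n₂ + n₃ := by abel
    have e2 := G2 ⟨hm3, hP3⟩ h1 h2 (by rw [σ.ip_add, hy1, h31]; norm_num)
      (by rw [σ.ip_add, hy2, h32]; norm_num) h12 (by rw [q]; exact hz)
    rw [q] at e2
    exact e2.trans e1
  by_cases hP12 : σ.P (σ.r (y + n₁ + n₂) x)
  · have e1 := G2 hy h1 h2 hy1 hy2 h12 ⟨hm12, hP12⟩
    have e2 := go1 σ hC hpot hR ⟨hm12, hP12⟩ h3
      (by rw [σ.ip_add, σ.ip_add, hy3, h13, h23]; norm_num) hz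
    exact e2.trans e1
  by_cases hP13 : σ.P (σ.r (y + n₁ + n₃) x)
  · have e1 := G2 hy h1 h3 hy1 hy3 h13 ⟨hm13, hP13⟩
    have q : y + n₁ + n₃ + n₂ = y + n₁ + n₂ + n₃ := by abel
    have e2 := go1 σ hC hpot hR ⟨hm13, hP13⟩ h2
      (by rw [σ.ip_add, σ.ip_add, hy2, h12, h32]; norm_num) (by rw [q]; exact hz)
    rw [q] at e2
    exact e2.trans e1
  by_cases hP23 : σ.P (σ.r (y + n₂ + n₃) x)
  · have e1 := G2 hy h2 h3 hy2 hy3 h23 ⟨hm23, hP23⟩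
    have q : y + n₂ + n₃ + n₁ = y + n₁ + n₂ + n₃ := by abel
    have e2 := go1 σ hC hpot hR ⟨hm23, hP23⟩ h1
      (by rw [σ.ip_add, σ.ip_add, hy1, h21, h31]; norm_num) (by rw [q]; exact hz)
    rw [q] at e2
    exact e2.trans e1
  rcases hpot.elim x (y + n₁ + n₂ + n₃) with he | ⟨f, hA, he⟩
  · rw [he, map_add, map_add, map_add, map_add, map_add, map_add]
    have := hpot.lab x y
    omega
  have hA' := hA
  obtain ⟨-, hf, hzf, -, hPzf⟩ := hA'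
  have hCx := hC h hpot x hR
  have hzn1 : σ.ip (y + n₁ + n₂ + n₃) n₁ = 1 := by
    rw [σ.ip_add, σ.ip_add, σ.ip_add, hy1, h11, h21, h31]; norm_num
  have hzn2 : σ.ip (y + n₁ + n₂ + n₃) n₂ = 1 := by
    rw [σ.ip_add, σ.ip_add, σ.ip_add, hy2, h22, h12, h32]; norm_num
  have hzn3 : σ.ip (y + n₁ + n₂ + n₃) n₃ = 1 := by
    rw [σ.ip_add, σ.ip_add, σ.ip_add, hy3, h33, h13, h23]; norm_num
  have hzy : σ.ip (y + n₁ + n₂ + n₃) y = -1 := by
    rw [σ.ip_add, σ.ip_add, σ.ip_add, hyy, hn1y, hn2y, hn3y]; norm_num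
  have q1 : y + n₁ + n₂ + n₃ - n₁ = y + n₂ + n₃ := by abel
  have q2 : y + n₁ + n₂ + n₃ - n₂ = y + n₁ + n₃ := by abel
  have q3 : y + n₁ + n₂ + n₃ - n₃ = y + n₁ + n₂ := by abel
  obtain ⟨a1, b1, c1⟩ := lemA σ hA h1 hzn1 (by rw [q1]; exact hm23) (by rw [q1]; exact hP23)
  obtain ⟨a2, b2, c2⟩ := lemA σ hA h2 hzn2 (by rw [q2]; exact hm13) (by rw [q2]; exact hP13)
  obtain ⟨a3, b3, c3⟩ := lemA σ hA h3 hzn3 (by rw [q3]; exact hm12) (by rw [q3]; exact hP12)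
  have hfz : σ.ip f y + σ.ip f n₁ + σ.ip f n₂ + σ.ip f n₃ = -1 := by
    rw [← σ.ip_add_right, ← σ.ip_add_right, ← σ.ip_add_right, σ.ip_symm]; exact hzf
  have main : σ.Psi (σ.r f x) y ∧ h (σ.r f x) y ≤ h x y := by
    rcases a1 with a1 | a1 <;> rcases a2 with a2 | a2 <;> rcases a3 with a3 | a3
    · exfalso
      have hfy : σ.ip f y = -1 := by omega
      have hfzΦ := σ.add_mem hz.1.1 hf.1.1 hzf
      have h4 := σ.ip_eq_neg_two hfzΦ hy.1.1 (by rw [σ.ip_add, hzy, hfy]; norm_num)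
      have h5 : σ.ht (y + n₁ + n₂ + n₃ + f) = - σ.ht y := by rw [h4, map_neg]
      rw [map_add] at h5
      have := hz.1.2.1
      have := hf.1.2.1
      omega
    · exact lemC1 σ hCx hR.v hy hf (by omega)
    · exact lemC1 σ hCx hR.v hy hf (by omega)
    · exact lemC2 σ hCx hR.v hy hf (by omega) hm2 (c2 a2)
    · exact lemC1 σ hCx hR.v hy hf (by omega)
    · exact lemC2 σ hCx hR.v hy hf (by omega) hm1 (c1 a1)
    · exact lemC2 σ hCx hR.v hy hf (by omega) hm1 (c1 a1)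
    · exfalso
      have hfy : f = y := σ.ip_eq_two hf.1.1 hy.1.1 (by omega)
      rw [hfy] at hPzf
      have q : y + n₂ + n₃ + n₁ = y + n₁ + n₂ + n₃ := by abel
      have hfin := hX x hR (y + n₂ + n₃) n₁ y hm23 h1 hy
        (by rw [σ.ip_add, σ.ip_add, hy1, h21, h31]; norm_num) hn1y
        (by rw [σ.ip_add, σ.ip_add, hyy, hn2y, hn3y]; norm_num) hP23
        (by rw [q]; exact hz) (by rw [add_comm]; exact hm1) (by rw [add_comm]; exact hP1)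
      rw [q] at hfin
      exact hfin hPzf
  have hz' : σ.Psi (σ.r f x) (y + n₁ + n₂ + n₃) := by
    refine ⟨⟨hz.1.1, hz.1.2.1, ?_⟩, hPzf⟩
    rw [σ.lab_r_neg hf.1.1 x (by rw [σ.ip_symm]; exact hzf), map_add]
    have := hf.1.2.2
    have := hz.1.2.2
    omega
  have hlt : σ.mu (σ.r f x) < k := by
    rw [← hk]
    exact (hmu x f hf.1).1
  have hfin := ih _ hlt (σ.r f x) rfl (hR.step hf) y n₁ n₂ n₃ main.1 b1 b2 b3 hy1 hy2 hy3
    h12 h13 h23 hz'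
  rw [he]
  exact hfin.trans main.2

theorem go (hC : S_CLM σ) (hX : S_FX σ) (hY : S_FY σ) (hmu : S_CNT σ) : S_GO σ := by
  intro h hpot x hR y l hy hl hz
  match l, hl, hz with
  | [], _, _ => simp
  | [n], hl, hz =>
    simp only [List.sum_cons, List.sum_nil, add_zero] at hz ⊢
    have h1 := hl.mem n (by simp)
    exact go1 σ hC hpot hR hy h1.1 h1.2 hz
  | [n₁, n₂], hl, hz =>
    have q : y + [n₁, n₂].sum = y + n₁ + n₂ := by
      simp only [List.sum_cons, List.sum_nil, add_zero]; abel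
    rw [q] at hz ⊢
    have h1 := hl.mem n₁ (by simp)
    have h2 := hl.mem n₂ (by simp)
    have ho := hl.orth
    simp only [List.pairwise_cons, List.mem_cons, List.not_mem_nil, or_false, forall_eq,
      List.Pairwise.nil, and_true] at ho
    exact go2 σ hC hX hY hmu hpot _ x rfl hR y n₁ n₂ hy h1.1 h2.1 h1.2 h2.2 (by tauto) hz
  | [n₁, n₂, n₃], hl, hz =>
    have q : y + [n₁, n₂, n₃].sum = y + n₁ + n₂ + n₃ := by
      simp only [List.sum_cons, List.sum_nil, add_zero]; abel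
    rw [q] at hz ⊢
    have h1 := hl.mem n₁ (by simp)
    have h2 := hl.mem n₂ (by simp)
    have h3 := hl.mem n₃ (by simp)
    have ho := hl.orth
    rw [List.pairwise_cons, List.pairwise_cons, List.pairwise_cons] at ho
    exact go3 σ hC hX hY hmu hpot _ x rfl hR y n₁ n₂ n₃ hy h1.1 h2.1 h3.1 h1.2 h2.2 h3.2
      (ho.1 n₂ (by simp)) (ho.1 n₃ (by simp)) (ho.2.1 n₃ (by simp)) hz
  | n₁ :: n₂ :: n₃ :: n₄ :: l', hl, hz =>
    exfalso
    have h1 := hl.mem n₁ (by simp)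
    have h2 := hl.mem n₂ (by simp)
    have h3 := hl.mem n₃ (by simp)
    have h4 := hl.mem n₄ (by simp)
    have ho := hl.orth
    rw [List.pairwise_cons, List.pairwise_cons, List.pairwise_cons] at ho
    have h12 := ho.1 n₂ (by simp)
    have h13 := ho.1 n₃ (by simp)
    have h14 := ho.1 n₄ (by simp)
    have h23 := ho.2.1 n₃ (by simp)
    have h24 := ho.2.1 n₄ (by simp)
    have h34 := ho.2.2.1 n₄ (by simp)
    have m1 := σ.add_mem hy.1.1 h1.1.1 h1.2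
    have m2 := σ.add_mem m1 h2.1.1 (by rw [σ.ip_add, h2.2, h12]; norm_num)
    have m3 := σ.add_mem m2 h3.1.1 (by rw [σ.ip_add, σ.ip_add, h3.2, h13, h23]; norm_num)
    have m4 := σ.add_mem m3 h4.1.1 (by
      rw [σ.ip_add, σ.ip_add, σ.ip_add, h4.2, h14, h24, h34]; norm_num)
    have h5 := σ.ip_eq_neg_two m4 hy.1.1 (by
      rw [σ.ip_add, σ.ip_add, σ.ip_add, σ.ip_add, σ.ip_self y hy.1.1, σ.ip_symm n₁ y,
        σ.ip_symm n₂ y, σ.ip_symm n₃ y, σ.ip_symm n₄ y, h1.2, h2.2, h3.2, h4.2]; norm_num)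
    have h6 : σ.ht (y + n₁ + n₂ + n₃ + n₄) = - σ.ht y := by rw [h5, map_neg]
    rw [map_add, map_add, map_add, map_add] at h6
    have := hy.1.2.1
    have := h1.1.2.1
    have := h2.1.2.1
    have := h3.1.2.1
    have := h4.1.2.1
    omega

end Pool.Agent.W435.DC
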